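import Pool.Agent.Q41.QL.Main

/-!
# The quasirandom log-limit is not determined by the spectra

There are two sequences of finite bipartite graphs, each graph with at least one edge, such that
the `n`-th graphs of the two sequences have the same spectrum for every `n`, the first sequence has
the quasirandom log-limit and the second one does not.

The first sequence consists of blow-ups of the second class of suitable instances `G_n` of the
random bipartite graph (for which the quasirandom log-limit is proved here by the second moment
method, via minimal collapses), the second of blow-ups of both classes of `G_n` together with
isolated vertices in the second class.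
-/

namespace Pool.Agent.Results.MP_8fd344_co.NotSpectral

open Pool.Agent.Q41.QL Pool.Agent.Q41.QL.BG

theorem result : ∃ G G' : ℕ → BG, (∀ n, HasEdge (G n)) ∧ (∀ n, HasEdge (G' n)) ∧
    (∀ n, spec (G n) = spec (G' n)) ∧ LogLimit G ∧ ¬ LogLimit G' :=
  BG.main

end Pool.Agent.Results.MP_8fd344_co.NotSpectral
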